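import Pool.Agent.JN2.Fn

/-!
# The uniform matrix is the unique minimiser of the expected matching number for all large `n`

There is `N` such that for every `n ≥ N` and every doubly stochastic `n × n` matrix `A`, the
expected size `F A` of a maximum matching of the random bipartite graph with independent edges of
probabilities `A i j` satisfies `F (J n) ≤ F A`, where `J n` has all entries `1 / n`, with strict
inequality unless `A = J n`.
-/

namespace Pool.Agent.Results.MP_c859d5_co.AllLargeN

open Finset

/-- A set `M` of edges of the complete bipartite graph on `Fin n` and `Fin n` is a matching when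
two different members of `M` never share an endpoint. -/
def IsMatchingSet {n : ℕ} (M : Finset (Fin n × Fin n)) : Prop :=
  ∀ e ∈ M, ∀ f ∈ M, e ≠ f → e.1 ≠ f.1 ∧ e.2 ≠ f.2

open Classical in
/-- The number of edges of a maximum matching of the bipartite graph with edge set `E`. -/
noncomputable def matchingNumber {n : ℕ} (E : Finset (Fin n × Fin n)) : ℕ :=
  (E.powerset.filter (fun M => IsMatchingSet M)).sup Finset.card

/-- The expected size of a maximum matching of the random bipartite graph in which the edge
`(i, j)` is present with probability `A i j`, independently for different edges. -/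
noncomputable def expectedMatching {n : ℕ} (A : Matrix (Fin n) (Fin n) ℝ) : ℝ :=
  ∑ E : Finset (Fin n × Fin n),
    ((∏ e ∈ E, A e.1 e.2) * ∏ e ∈ Eᶜ, (1 - A e.1 e.2)) * (matchingNumber E : ℝ)

/-- The `n × n` matrix with all entries equal to `1 / n`. -/
noncomputable def uniformMatrix (n : ℕ) : Matrix (Fin n) (Fin n) ℝ :=
  Matrix.of (fun _ _ => 1 / (n : ℝ))

theorem matchingNumber_eq {n : ℕ} (E : Finset (Fin n × Fin n)) :
    matchingNumber E = Pool.KS.nu E := by
  classical
  unfold matchingNumber Pool.KS.nu
  congr 1
  refine Finset.filter_congr (fun M _ => ?_)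
  unfold IsMatchingSet Pool.KS.IsMatching
  constructor
  · intro h e he f hf hh
    by_contra hne
    have := h e he f hf hne
    rcases hh with hh | hh
    · exact this.1 hh
    · exact this.2 hh
  · intro h e he f hf hne
    exact ⟨fun hh => hne (h e he f hf (Or.inl hh)), fun hh => hne (h e he f hf (Or.inr hh))⟩

theorem expectedMatching_eq {n : ℕ} (A : Matrix (Fin n) (Fin n) ℝ) :
    expectedMatching A = Pool.KS.Ex (fun e : Fin n × Fin n => A e.1 e.2)
      (fun E => (Pool.KS.nu E : ℝ)) := by
  unfold expectedMatching Pool.KS.Ex
  refine Finset.sum_congr rfl (fun E _ => ?_)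
  rw [matchingNumber_eq]
  congr 1
  unfold Pool.KS.W
  rw [Finset.prod_ite]
  congr 1
  · exact Finset.prod_congr (by ext e; simp) (fun _ _ => rfl)
  · exact Finset.prod_congr (by ext e; simp) (fun _ _ => rfl)

/-- For all sufficiently large `n` and ALL doubly stochastic `n × n` matrices `A`: the uniform
matrix has `expectedMatching` at most that of `A`, and strictly smaller unless `A` is the uniform
matrix. -/
theorem result : ∃ N : ℕ, ∀ n : ℕ, N ≤ n → ∀ A : Matrix (Fin n) (Fin n) ℝ,
    A ∈ doublyStochastic ℝ (Fin n) →
      expectedMatching (uniformMatrix n) ≤ expectedMatching A ∧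
      (A ≠ uniformMatrix n → expectedMatching (uniformMatrix n) < expectedMatching A) := by
  obtain ⟨N, h⟩ := Pool.JN2.t2
  refine ⟨N, fun n hn A hA => ?_⟩
  rw [mem_doublyStochastic_iff_sum] at hA
  obtain ⟨h0, hr, hc⟩ := hA
  obtain ⟨h1, h2⟩ := h (I := Fin n) (J := Fin n) (fun e => A e.1 e.2)
    ⟨rfl, fun e => h0 _ _, hr, hc⟩ (by rw [Fintype.card_fin]; exact hn)
  have hu : (fun _ : Fin n × Fin n => 1 / (Fintype.card (Fin n) : ℝ)) =
      fun e => uniformMatrix n e.1 e.2 := by
    funext e
    rw [Fintype.card_fin]
    rfl
  unfold Pool.JN2.FF at h1 h2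
  rw [hu] at h1 h2
  rw [← expectedMatching_eq, ← expectedMatching_eq] at h1 h2
  refine ⟨h1, fun hne => h2 (fun heq => hne ?_)⟩
  ext i j
  exact congrFun heq (i, j)

end Pool.Agent.Results.MP_c859d5_co.AllLargeN
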