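import Pool.Agent.KS.Main2
import Pool.Agent.KX.Upper

/-!
# The uniform matrix minimises the expected matching number up to a constant

For every `n` and every doubly stochastic `n × n` matrix `A`, the expected size `F A` of a maximum
matching of the random bipartite graph with independent edges of probabilities `A i j` satisfies
`F (J n) + (1 / 2500) * ∑ A i j ^ 2 ≤ F A + 5 / 2`, where `J n` has all entries `1 / n`.
-/

namespace Pool.Agent.Results.MP_c859d5_co.SharpUpToConstant

open Finset

/-- A set `M` of edges of the complete bipartite graph on `Fin n` and `Fin n` is a matching when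
two different members of `M` never share an endpoint. -/
def IsMatchingSet {n : ℕ} (M : Finset (Fin n × Fin n)) : Prop :=
  ∀ e ∈ M, ∀ f ∈ M, e ≠ f → e.1 ≠ f.1 ∧ e.2 ≠ f.2

open Classical in
/-- The number of edges of a maximum matching of the bipartite graph with edge set `E`. -/
noncomputable def matchingNumber {n : ℕ} (E : Finset (Fin n × Fin n)) : ℕ :=
  (E.powerset.filter (fun M => IsMatchingSet M)).sup Finset.card

/-- The expected size of a maximum matching of the random bipartite graph in which the edge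
`(i, j)` is present with probability `A i j`, independently for different edges. -/
noncomputable def expectedMatching {n : ℕ} (A : Matrix (Fin n) (Fin n) ℝ) : ℝ :=
  ∑ E : Finset (Fin n × Fin n),
    ((∏ e ∈ E, A e.1 e.2) * ∏ e ∈ Eᶜ, (1 - A e.1 e.2)) * (matchingNumber E : ℝ)

/-- The `n × n` matrix with all entries equal to `1 / n`. -/
noncomputable def uniformMatrix (n : ℕ) : Matrix (Fin n) (Fin n) ℝ :=
  Matrix.of (fun _ _ => 1 / (n : ℝ))

theorem matchingNumber_eq {n : ℕ} (E : Finset (Fin n × Fin n)) :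
    matchingNumber E = Pool.KS.nu E := by
  classical
  unfold matchingNumber Pool.KS.nu
  congr 1
  refine Finset.filter_congr (fun M _ => ?_)
  unfold IsMatchingSet Pool.KS.IsMatching
  constructor
  · intro h e he f hf hh
    by_contra hne
    have := h e he f hf hne
    rcases hh with hh | hh
    · exact this.1 hh
    · exact this.2 hh
  · intro h e he f hf hne
    exact ⟨fun hh => hne (h e he f hf (Or.inl hh)), fun hh => hne (h e he f hf (Or.inr hh))⟩

theorem expectedMatching_eq {n : ℕ} (A : Matrix (Fin n) (Fin n) ℝ) :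
    expectedMatching A = Pool.KS.Ex (fun e : Fin n × Fin n => A e.1 e.2)
      (fun E => (Pool.KS.nu E : ℝ)) := by
  unfold expectedMatching Pool.KS.Ex
  refine Finset.sum_congr rfl (fun E _ => ?_)
  rw [matchingNumber_eq]
  congr 1
  unfold Pool.KS.W
  rw [Finset.prod_ite]
  congr 1
  · exact Finset.prod_congr (by ext e; simp) (fun _ _ => rfl)
  · exact Finset.prod_congr (by ext e; simp) (fun _ _ => rfl)

theorem lower {n : ℕ} {A : Matrix (Fin n) (Fin n) ℝ} (hA : A ∈ doublyStochastic ℝ (Fin n))
    {lam : ℝ} (hlam : lam = Real.exp (-lam)) :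
    (2 * (1 - lam) - lam ^ 2) * n + 1 / 2500 * ∑ i, ∑ j, A i j ^ 2 ≤ expectedMatching A := by
  rw [mem_doublyStochastic_iff_sum] at hA
  obtain ⟨h0, hr, hc⟩ := hA
  rw [expectedMatching_eq]
  have h := Pool.KS.main_bound2 hlam.symm (fun e : Fin n × Fin n => A e.1 e.2) rfl
    (fun e => h0 _ _) hr hc
  rw [Fintype.card_fin] at h
  have e : (4 : ℝ) / 10000 = 1 / 2500 := by norm_num
  rwa [e] at h

theorem matchingNumber_le {n : ℕ} (E : Finset (Fin n × Fin n)) : matchingNumber E ≤ E.card := by
  classical
  unfold matchingNumber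
  refine Finset.sup_le (fun M hM => ?_)
  exact Finset.card_le_card (Finset.mem_powerset.mp (Finset.mem_filter.mp hM).1)

theorem upper (n : ℕ) {lam : ℝ} (hlam : lam = Real.exp (-lam)) :
    expectedMatching (uniformMatrix n) ≤ (2 * (1 - lam) - lam ^ 2) * n + 5 / 2 := by
  have h0 : 0 < lam := by rw [hlam]; exact Real.exp_pos _
  have h1 : lam ≤ 1 := by
    rw [hlam, Real.exp_le_one_iff]; linarith
  rcases Nat.lt_or_ge n 2 with hn | hn
  · -- the sum over at most two edge sets
    have hcard : ∀ E : Finset (Fin n × Fin n), (matchingNumber E : ℝ) ≤ 1 := by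
      intro E
      have h2 := matchingNumber_le E
      have h3 : E.card ≤ 1 := by
        refine (Finset.card_le_univ E).trans ?_
        rw [Fintype.card_prod, Fintype.card_fin]
        interval_cases n <;> norm_num
      exact_mod_cast h2.trans h3
    have hp : ∀ e : Fin n × Fin n, 0 ≤ uniformMatrix n e.1 e.2 ∧ uniformMatrix n e.1 e.2 ≤ 1 := by
      intro e
      show 0 ≤ 1 / (n : ℝ) ∧ 1 / (n : ℝ) ≤ 1
      interval_cases n <;> norm_num
    have h2 : expectedMatching (uniformMatrix n) ≤ 1 := by
      rw [expectedMatching_eq]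
      refine (Pool.KS.Ex_mono (fun e => (hp e).1) (fun e => (hp e).2)
        (g := fun _ => (1 : ℝ)) (fun E => ?_)).trans ?_
      · rw [← matchingNumber_eq]; exact hcard E
      · rw [Pool.KS.Ex_const]
    have h3 : (0 : ℝ) ≤ n := Nat.cast_nonneg n
    have h4 : (n : ℝ) ≤ 1 := by exact_mod_cast Nat.lt_succ_iff.mp hn
    nlinarith [mul_nonneg h3 h0.le, mul_nonneg h3 (sub_nonneg.mpr h1)]
  · obtain ⟨N, rfl⟩ : ∃ N, n = N + 1 := ⟨n - 1, by omega⟩
    rw [expectedMatching_eq]
    have h2 := Pool.KX.fx_univ_upper (I := Fin (N + 1)) (J := Fin (N + 1)) N (by omega)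
      (Fintype.card_fin _) (Fintype.card_fin _) hlam.symm
    have h3 : (fun e : Fin (N + 1) × Fin (N + 1) => uniformMatrix (N + 1) e.1 e.2) =
        fun _ => 1 / ((N : ℝ) + 1) := by
      funext e
      show 1 / ((N + 1 : ℕ) : ℝ) = 1 / ((N : ℝ) + 1)
      push_cast
      rfl
    rw [h3]
    push_cast
    exact h2

/-- For every `n` and every doubly stochastic matrix `A` of size `n`, with `F = expectedMatching`:
the value at `A` is at least `F J + (1 / 2500) ∑ A i j ^ 2 - 5 / 2`, where `J` has all entries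
`1 / n`; hence it is at least `F J` as soon as `6250 ≤ ∑ A i j ^ 2`; and the two values are
compared with `γ n`, where `γ = 2 (1 - lam) - lam ^ 2` and `lam = exp (-lam)`. -/
theorem result (n : ℕ) (A : Matrix (Fin n) (Fin n) ℝ) (hA : A ∈ doublyStochastic ℝ (Fin n)) :
    expectedMatching (uniformMatrix n) + 1 / 2500 * ∑ i, ∑ j, A i j ^ 2 ≤
      expectedMatching A + 5 / 2 ∧
    (6250 ≤ ∑ i, ∑ j, A i j ^ 2 → expectedMatching (uniformMatrix n) ≤ expectedMatching A) ∧
    ∃ lam : ℝ, lam = Real.exp (-lam) ∧
      (2 * (1 - lam) - lam ^ 2) * n + 1 / 2500 * ∑ i, ∑ j, A i j ^ 2 ≤ expectedMatching A ∧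
      expectedMatching (uniformMatrix n) ≤ (2 * (1 - lam) - lam ^ 2) * n + 5 / 2 := by
  obtain ⟨lam, hlam⟩ : ∃ lam : ℝ, lam = Real.exp (-lam) := by
    have hc : ContinuousOn (fun x : ℝ => x - Real.exp (-x)) (Set.Icc 0 1) := by fun_prop
    have h := intermediate_value_Icc (zero_le_one (α := ℝ)) hc
    have h0 : (0 : ℝ) ∈ Set.Icc ((0 : ℝ) - Real.exp (-0)) (1 - Real.exp (-1)) := by
      constructor
      · simp
      · have : Real.exp (-1) ≤ 1 := by rw [Real.exp_le_one_iff]; norm_num
        linarith
    obtain ⟨x, _, hx⟩ := h h0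
    exact ⟨x, by linarith [hx]⟩
  have h1 := lower hA hlam
  have h2 := upper n hlam
  refine ⟨by linarith, fun h => by linarith, lam, hlam, h1, h2⟩

end Pool.Agent.Results.MP_c859d5_co.SharpUpToConstant
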